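import Mathlib

set_option autoImplicit false

namespace Pool.Agent.V1198.WMP

open Filter Topology Set NormedSpace

variable {E : Type*} [NormedAddCommGroup E] [NormedSpace ℝ E]

/-- A finite subset of the unit ball that norms a finite-dimensional space of functionals. -/
theorem exists_norming (V : Submodule ℝ (StrongDual ℝ E)) [FiniteDimensional ℝ V] :
    ∃ X : Finset E, ∀ y ∈ V, ‖y‖ = 1 → ∃ x ∈ X, ‖x‖ ≤ 1 ∧ 1 / 2 < |y x| := by
  classical
  have hS : IsCompact ((fun y : V => (y : StrongDual ℝ E)) '' Metric.sphere (0 : V) 1) :=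
    (isCompact_sphere (0 : V) 1).image continuous_subtype_val
  obtain ⟨t, ht⟩ := hS.elim_finite_subcover
    (fun x : {x : E // ‖x‖ ≤ 1} => {y : StrongDual ℝ E | 1 / 2 < |y x|})
    (fun x => by
      refine isOpen_lt continuous_const ?_
      have : Continuous fun y : StrongDual ℝ E => y x := by fun_prop
      exact this.abs)
    (by
      rintro _ ⟨y, hy, rfl⟩
      have hy1 : ‖(y : StrongDual ℝ E)‖ = 1 := mem_sphere_zero_iff_norm.mp hy
      obtain ⟨x, hx, hx2⟩ := (y : StrongDual ℝ E).exists_lt_apply_of_lt_opNorm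
        (r := 1 / 2) (by rw [hy1]; norm_num)
      exact mem_iUnion.mpr ⟨⟨x, hx.le⟩, hx2⟩)
  refine ⟨t.image Subtype.val, fun y hy hy1 => ?_⟩
  have h1 : y ∈ (fun y : V => (y : StrongDual ℝ E)) '' Metric.sphere (0 : V) 1 :=
    ⟨⟨y, hy⟩, mem_sphere_zero_iff_norm.mpr hy1, rfl⟩
  have h2 := ht h1
  rw [mem_iUnion₂] at h2
  obtain ⟨x, hx, hxy⟩ := h2
  exact ⟨x, Finset.mem_image_of_mem _ hx, x.2, hxy⟩

/-- A norm one functional that vanishes on a finite set. -/
theorem exists_vanish (hE : ¬ FiniteDimensional ℝ E) (X : Finset E) :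
    ∃ y : StrongDual ℝ E, ‖y‖ = 1 ∧ ∀ x ∈ X, y x = 0 := by
  let L : StrongDual ℝ E →ₗ[ℝ] (X → ℝ) :=
    { toFun := fun y x => y x
      map_add' := fun _ _ => rfl
      map_smul' := fun _ _ => rfl }
  by_cases hL : Function.Injective L
  · exfalso
    have : FiniteDimensional ℝ (StrongDual ℝ E) := FiniteDimensional.of_injective L hL
    have h2 : FiniteDimensional ℝ (StrongDual ℝ (StrongDual ℝ E)) := inferInstance
    refine hE (FiniteDimensional.of_injective (inclusionInDoubleDual ℝ E).toLinearMap ?_)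
    intro x y hxy
    have hxy' : inclusionInDoubleDual ℝ E x = inclusionInDoubleDual ℝ E y := hxy
    rw [SeparatingDual.eq_iff_forall_dual_eq (R := ℝ)]
    intro g
    have := congrArg (fun Φ : StrongDual ℝ (StrongDual ℝ E) => Φ g) hxy'
    simpa using this
  · rw [injective_iff_map_eq_zero] at hL
    push Not at hL
    obtain ⟨y, hy0, hy⟩ := hL
    have hy' : ‖y‖ ≠ 0 := norm_ne_zero_iff.mpr hy
    refine ⟨‖y‖⁻¹ • y, by rw [norm_smul, norm_inv, norm_norm, inv_mul_cancel₀ hy'], fun x hx => ?_⟩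
    have h1 : y x = 0 := congrFun hy0 ⟨x, hx⟩
    change ‖y‖⁻¹ * y x = 0
    rw [h1, mul_zero]

/-- Weak* limits along ultrafilters. -/
theorem exists_ulim (U : Ultrafilter ℕ) (g : ℕ → StrongDual ℝ E) (hg : ∀ n, ‖g n‖ ≤ 1) :
    ∃ G : StrongDual ℝ E, ∀ x, Tendsto (fun n => g n x) U (𝓝 (G x)) := by
  have hK := WeakDual.isCompact_closedBall (𝕜 := ℝ) (E := E) 0 1
  have h1 : ∀ n, StrongDual.toWeakDual (g n) ∈
      (WeakDual.toStrongDual ⁻¹' Metric.closedBall (0 : StrongDual ℝ E) 1) := by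
    intro n
    simpa using hg n
  have h2 := (isCompact_iff_ultrafilter_le_nhds.1 hK) (U.map (fun n => StrongDual.toWeakDual (g n))) (by
    rw [le_principal_iff]
    exact Filter.mem_map.2 (Filter.Eventually.of_forall h1))
  obtain ⟨G, -, hG⟩ := h2
  refine ⟨WeakDual.toStrongDual G, fun w => ?_⟩
  have h3 : Tendsto (fun n => StrongDual.toWeakDual (g n)) U (𝓝 G) := hG
  exact ((WeakDual.eval_continuous w).tendsto G).comp h3

/-- In the dual of an infinite-dimensional reflexive space there is a weak* null sequence of norm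
one functionals. -/
theorem exists_null_of_reflexive (hE : ¬ FiniteDimensional ℝ E)
    (hR : Function.Surjective (inclusionInDoubleDual ℝ E)) :
    ∃ y : ℕ → StrongDual ℝ E, (∀ n, ‖y n‖ = 1) ∧ ∀ x, Tendsto (fun n => y n x) atTop (𝓝 0) := by
  classical
  obtain ⟨f, hf1, hf2⟩ := exists_seq_of_forall_finset_exists
    (fun a : StrongDual ℝ E × Submodule ℝ (StrongDual ℝ E) × Finset E =>
      ‖a.1‖ = 1 ∧ a.1 ∈ a.2.1 ∧ FiniteDimensional ℝ a.2.1 ∧
        ∀ y ∈ a.2.1, ‖y‖ = 1 → ∃ x ∈ a.2.2, ‖x‖ ≤ 1 ∧ 1 / 2 < |y x|)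
    (fun a b => a.2.1 ≤ b.2.1 ∧ ∀ x ∈ a.2.2, b.1 x = 0) (by
      intro s hs
      obtain ⟨y, hy1, hy2⟩ := exists_vanish hE (s.biUnion fun a => a.2.2)
      have : ∀ i : s, FiniteDimensional ℝ i.1.2.1 := fun i => (hs i.1 i.2).2.2.1
      let V : Submodule ℝ (StrongDual ℝ E) := (⨆ i : s, i.1.2.1) ⊔ Submodule.span ℝ {y}
      have hV : FiniteDimensional ℝ V := inferInstance
      obtain ⟨X, hX⟩ := exists_norming V
      refine ⟨(y, V, X), ⟨hy1, ?_, hV, hX⟩, fun a ha => ⟨?_, fun x hx => ?_⟩⟩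
      · exact Submodule.mem_sup_right (Submodule.mem_span_singleton_self y)
      · exact (le_iSup (fun i : s => i.1.2.1) ⟨a, ha⟩).trans le_sup_left
      · exact hy2 x (Finset.mem_biUnion.mpr ⟨a, ha, hx⟩))
  refine ⟨fun n => (f n).1, fun n => (hf1 n).1, fun x₀ => ?_⟩
  have hVmono : Monotone fun n => (f n).2.1 := by
    intro m n hmn
    rcases hmn.eq_or_lt with rfl | h
    · exact le_rfl
    · exact (hf2 m n h).1
  by_contra hcon
  rw [Metric.tendsto_atTop] at hcon
  push Not at hcon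
  obtain ⟨ε, hε, hfreq⟩ := hcon
  have hne : (atTop ⊓ 𝓟 {n : ℕ | ε ≤ |(f n).1 x₀|}).NeBot := by
    rw [inf_principal_neBot_iff]
    intro s hs
    obtain ⟨N, hN⟩ := mem_atTop_sets.mp hs
    obtain ⟨n, hn, h⟩ := hfreq N
    rw [dist_zero_right, Real.norm_eq_abs] at h
    exact ⟨n, hN n hn, h⟩
  let U := Ultrafilter.of (atTop ⊓ 𝓟 {n : ℕ | ε ≤ |(f n).1 x₀|})
  have hU : (U : Filter ℕ) ≤ atTop ⊓ 𝓟 {n : ℕ | ε ≤ |(f n).1 x₀|} := Ultrafilter.of_le _
  obtain ⟨G, hG⟩ := exists_ulim U (fun n => (f n).1) fun n => (hf1 n).1.le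
  have hGx₀ : ε ≤ |G x₀| := by
    refine ge_of_tendsto (hG x₀).abs ?_
    exact (hU.trans inf_le_right) (mem_principal_self _)
  have hGX : ∀ m, ∀ x ∈ (f m).2.2, G x = 0 := by
    intro m x hx
    have h1 : Tendsto (fun n => (f n).1 x) U (𝓝 0) := by
      refine tendsto_const_nhds.congr' ?_
      refine (hU.trans inf_le_left) ?_
      filter_upwards [eventually_gt_atTop m] with n hn
      exact ((hf2 m n hn).2 x hx).symm
    exact tendsto_nhds_unique (hG x) h1
  -- `G` is in the closed span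
  have hGs : G ∈ closure (Submodule.span ℝ (range fun n => (f n).1) : Set (StrongDual ℝ E)) := by
    by_contra hnot
    obtain ⟨Φ, r, h1, h2⟩ := geometric_hahn_banach_closed_point
      (Submodule.convex _).closure isClosed_closure hnot
    have h0 : 0 < r := by
      have := h1 0 (subset_closure (Submodule.zero_mem _))
      rwa [map_zero] at this
    have h3 : ∀ n, Φ (f n).1 = 0 := by
      intro n
      by_contra hne
      have hmem : ∀ t : ℝ, t * Φ (f n).1 < r := by
        intro t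
        have := h1 (t • (f n).1) (subset_closure
          (Submodule.smul_mem _ t (Submodule.subset_span ⟨n, rfl⟩)))
        rwa [map_smul, smul_eq_mul] at this
      have := hmem (r / Φ (f n).1)
      rw [div_mul_cancel₀ _ hne] at this
      exact lt_irrefl _ this
    obtain ⟨x₁, rfl⟩ := hR Φ
    have h4 : Tendsto (fun n => (f n).1 x₁) U (𝓝 0) := by
      refine tendsto_const_nhds.congr fun n => ?_
      have := h3 n
      simpa using this.symm
    have h5 := tendsto_nhds_unique (hG x₁) h4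
    have h6 : inclusionInDoubleDual ℝ E x₁ G = G x₁ := rfl
    rw [h6, h5] at h2
    linarith
  have hG0 : ‖G‖ ≤ 0 := by
    refine le_of_forall_pos_le_add fun δ hδ => ?_
    obtain ⟨y', hy', hyd⟩ := Metric.mem_closure_iff.mp hGs (δ / 3) (by positivity)
    rw [dist_eq_norm] at hyd
    obtain ⟨n, hn⟩ : ∃ n, y' ∈ (f n).2.1 := by
      have h1 : Submodule.span ℝ (range fun n => (f n).1) ≤ ⨆ n, (f n).2.1 := by
        rw [Submodule.span_le]
        rintro _ ⟨n, rfl⟩
        exact Submodule.mem_iSup_of_mem n (hf1 n).2.1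
      exact (Submodule.mem_iSup_of_directed _ hVmono.directed_le).mp (h1 hy')
    have h2 : ‖y'‖ ≤ 2 * (δ / 3) := by
      by_cases hy0 : y' = 0
      · rw [hy0, norm_zero]; positivity
      · have hy0' : ‖y'‖ ≠ 0 := norm_ne_zero_iff.mpr hy0
        obtain ⟨x, hx, hx1, hx2⟩ := (hf1 n).2.2.2 (‖y'‖⁻¹ • y') (Submodule.smul_mem _ _ hn)
          (by rw [norm_smul, norm_inv, norm_norm, inv_mul_cancel₀ hy0'])
        have h3 : (‖y'‖⁻¹ • y') x = ‖y'‖⁻¹ * y' x := rfl
        rw [h3, abs_mul, abs_inv, abs_norm, inv_mul_eq_div, lt_div_iff₀ (by positivity)] at hx2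
        have h4 : |y' x| ≤ δ / 3 := by
          have h5 : y' x = -((G - y') x) := by
            rw [sub_apply, hGX n x hx]; ring
          rw [h5, abs_neg]
          have h6 := (G - y').le_opNorm x
          rw [Real.norm_eq_abs] at h6
          calc |(G - y') x| ≤ ‖G - y'‖ * ‖x‖ := h6
            _ ≤ δ / 3 * 1 := by gcongr
            _ = δ / 3 := mul_one _
        linarith
    have h3 : ‖G‖ ≤ ‖G - y'‖ + ‖y'‖ := by
      have := norm_add_le (G - y') y'
      rwa [sub_add_cancel] at this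
    linarith
  have hG0' : G = 0 := norm_le_zero_iff.mp hG0
  rw [hG0'] at hGx₀
  simp at hGx₀
  linarith

end Pool.Agent.V1198.WMP
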