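import Mathlib

set_option autoImplicit false

namespace Pool.Agent.V1198.WMP

open Filter Topology Set

universe u v

variable {𝕜 : Type v} [RCLike 𝕜]

/-- `T` attains its norm on the unit sphere. -/
def AttainsNorm {E F : Type*} [NormedAddCommGroup E] [NormedSpace 𝕜 E] [NormedAddCommGroup F]
    [NormedSpace 𝕜 F] (T : E →L[𝕜] F) : Prop := ∃ x : E, ‖x‖ = 1 ∧ ‖T x‖ = ‖T‖

/-- The sequence `x` is weakly null. -/
def WeaklyNull (𝕜 : Type*) [RCLike 𝕜] {E : Type*} [NormedAddCommGroup E] [NormedSpace 𝕜 E]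
    (x : ℕ → E) : Prop := ∀ φ : StrongDual 𝕜 E, Tendsto (fun n => φ (x n)) atTop (𝓝 0)

set_option linter.dupNamespace false in
/-- The pair `(E, F)` has the weak maximizing property. -/
def WMP (𝕜 : Type*) [RCLike 𝕜] (E F : Type*) [NormedAddCommGroup E] [NormedSpace 𝕜 E]
    [NormedAddCommGroup F] [NormedSpace 𝕜 F] : Prop :=
  ∀ T : E →L[𝕜] F, (∃ x : ℕ → E, (∀ n, ‖x n‖ = 1) ∧
    Tendsto (fun n => ‖T (x n)‖) atTop (𝓝 ‖T‖) ∧ ¬ WeaklyNull 𝕜 x) → AttainsNorm T

/-- An operator into the completion. -/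
theorem exists_operator_aux {E E' : Type u} [NormedAddCommGroup E] [NormedSpace 𝕜 E]
    [SeminormedAddCommGroup E'] [NormedSpace 𝕜 E'] (J : E →ₗ[𝕜] E') {C : ℝ}
    (hp : ∀ x, ‖J x‖ ≤ C * ‖x‖) :
    ∃ (F : Type u) (_ : NormedAddCommGroup F) (_ : NormedSpace 𝕜 F) (_ : CompleteSpace F)
      (T : E →L[𝕜] F), ∀ x, ‖T x‖ = ‖J x‖ := by
  refine ⟨UniformSpace.Completion E', inferInstance, inferInstance, inferInstance, ?_⟩
  let L : E →ₗ[𝕜] UniformSpace.Completion E' :=
    (UniformSpace.Completion.toComplL : E' →L[𝕜] UniformSpace.Completion E').toLinearMap.comp J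
  have hL : ∀ x, ‖L x‖ = ‖J x‖ := fun x => UniformSpace.Completion.norm_coe (J x)
  exact ⟨L.mkContinuous C fun x => by rw [hL]; exact hp x, hL⟩

/-- A copy of a space, to be normed by a seminorm. -/
def Copy {E : Type u} [AddCommGroup E] [Module 𝕜 E] (_p : Seminorm 𝕜 E) : Type u := E

section copy

variable {E : Type u} [AddCommGroup E] [Module 𝕜 E] (p : Seminorm 𝕜 E)

noncomputable instance : AddCommGroup (Copy p) := inferInstanceAs (AddCommGroup E)
noncomputable instance : Module 𝕜 (Copy p) := inferInstanceAs (Module 𝕜 E)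
noncomputable instance : Norm (Copy p) := ⟨fun x => p (show E from x)⟩

theorem core : SeminormedSpace.Core 𝕜 (Copy p) where
  norm_nonneg := fun x => apply_nonneg p (show E from x)
  norm_smul := fun c x => map_smul_eq_mul p c (show E from x)
  norm_triangle := fun x y => map_add_le_add p (show E from x) (show E from y)

noncomputable instance : SeminormedAddCommGroup (Copy p) :=
  SeminormedAddCommGroup.ofCore (𝕜 := 𝕜) (core p)

noncomputable instance : NormedSpace 𝕜 (Copy p) :=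
  { (inferInstance : Module 𝕜 (Copy p)) with
    norm_smul_le := fun c x => (map_smul_eq_mul p c (show E from x)).le }

/-- The identity. -/
def toCopy : E →ₗ[𝕜] Copy p where
  toFun x := x
  map_add' _ _ := rfl
  map_smul' _ _ := rfl

end copy

/-- Every continuous seminorm is `x ↦ ‖T x‖` for an operator `T`. -/
theorem exists_operator {E : Type u} [NormedAddCommGroup E] [NormedSpace 𝕜 E] (p : Seminorm 𝕜 E)
    {C : ℝ} (hp : ∀ x, p x ≤ C * ‖x‖) :
    ∃ (F : Type u) (_ : NormedAddCommGroup F) (_ : NormedSpace 𝕜 F) (_ : CompleteSpace F)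
      (T : E →L[𝕜] F), ∀ x, ‖T x‖ = p x :=
  exists_operator_aux (toCopy p) hp

/-- The weak maximizing property in terms of seminorms. -/
theorem wmp_seminorm {E : Type u} [NormedAddCommGroup E] [NormedSpace 𝕜 E]
    (hE : ∀ (F : Type u) [NormedAddCommGroup F] [NormedSpace 𝕜 F] [CompleteSpace F], WMP 𝕜 E F)
    (p : Seminorm 𝕜 E) {S : ℝ} (hp : ∀ x, ‖x‖ = 1 → p x ≤ S) (x : ℕ → E)
    (hx : ∀ n, ‖x n‖ = 1) (hlim : Tendsto (fun n => p (x n)) atTop (𝓝 S))
    (hw : ¬ WeaklyNull 𝕜 x) : ∃ y : E, ‖y‖ = 1 ∧ p y = S := by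
  have hp' : ∀ y, p y ≤ S * ‖y‖ := by
    intro y
    by_cases hy : y = 0
    · simp [hy]
    · have hy0 : ‖y‖ ≠ 0 := norm_ne_zero_iff.mpr hy
      have h1 := hp (((‖y‖ : ℝ) : 𝕜)⁻¹ • y) (by
        rw [norm_smul, norm_inv, RCLike.norm_ofReal, abs_norm, inv_mul_cancel₀ hy0])
      rw [map_smul_eq_mul, norm_inv, RCLike.norm_ofReal, abs_norm,
        inv_mul_le_iff₀ (by positivity), mul_comm] at h1
      exact h1
  obtain ⟨F, _, _, _, T, hT⟩ := exists_operator p hp'
  have hTn : ‖T‖ = S := by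
    refine le_antisymm ?_ ?_
    · refine ContinuousLinearMap.opNorm_le_bound _ ?_ fun y => by rw [hT]; exact hp' y
      exact (apply_nonneg p (x 0)).trans (hp _ (hx 0))
    · refine le_of_tendsto hlim (Eventually.of_forall fun n => ?_)
      rw [← hT]
      have := T.le_opNorm (x n)
      rwa [hx, mul_one] at this
  obtain ⟨y, hy, hTy⟩ := hE F T ⟨x, hx, by simpa only [hT, hTn] using hlim, hw⟩
  exact ⟨y, hy, by rw [← hT, hTy, hTn]⟩

end Pool.Agent.V1198.WMP
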