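import Pool.Agent.V1198.WMP.Basic

set_option autoImplicit false

namespace Pool.Agent.V1198.WMP

open Filter Topology Set
open scoped NNReal

universe u v

variable {𝕜 : Type v} [RCLike 𝕜] {E : Type u} [NormedAddCommGroup E] [NormedSpace 𝕜 E]

/-- The weak maximizing property, in terms of seminorms. -/
def SW (𝕜 : Type v) [RCLike 𝕜] (E : Type u) [NormedAddCommGroup E] [NormedSpace 𝕜 E] : Prop :=
  ∀ (p : Seminorm 𝕜 E) (S : ℝ), (∀ x, ‖x‖ = 1 → p x ≤ S) → ∀ x : ℕ → E, (∀ n, ‖x n‖ = 1) →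
    Tendsto (fun n => p (x n)) atTop (𝓝 S) → ¬ WeaklyNull 𝕜 x → ∃ y : E, ‖y‖ = 1 ∧ p y = S

/-- The seminorm `c |v|`. -/
noncomputable def absS (c : ℝ≥0) (v : StrongDual 𝕜 E) : Seminorm 𝕜 E :=
  c • (normSeminorm 𝕜 𝕜).comp (v : E →ₗ[𝕜] 𝕜)

theorem absS_apply (c : ℝ≥0) (v : StrongDual 𝕜 E) (x : E) : absS c v x = c * ‖v x‖ := rfl

/-- A supremum of a sequence of seminorms. -/
noncomputable def supS (P : ℕ → Seminorm 𝕜 E) (hP : ∀ x, BddAbove (range fun n => P n x)) :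
    Seminorm 𝕜 E :=
  Seminorm.of (fun x => ⨆ n, P n x)
    (fun x y => ciSup_le fun n => (map_add_le_add (P n) x y).trans
      (add_le_add (le_ciSup (hP x) n) (le_ciSup (hP y) n)))
    (fun a x => by
      simp_rw [map_smul_eq_mul]
      rw [Real.mul_iSup_of_nonneg (norm_nonneg _)])

theorem supS_apply (P : ℕ → Seminorm 𝕜 E) (hP : ∀ x, BddAbove (range fun n => P n x)) (x : E) :
    supS P hP x = ⨆ n, P n x := rfl

theorem bdd_of_sphere {p : Seminorm 𝕜 E} {S : ℝ} (hp : ∀ x, ‖x‖ = 1 → p x ≤ S) (y : E) :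
    p y ≤ S * ‖y‖ := by
  by_cases hy : y = 0
  · simp [hy]
  · have hy0 : ‖y‖ ≠ 0 := norm_ne_zero_iff.mpr hy
    have h1 := hp (((‖y‖ : ℝ) : 𝕜)⁻¹ • y) (by
      rw [norm_smul, norm_inv, RCLike.norm_ofReal, abs_norm, inv_mul_cancel₀ hy0])
    rw [map_smul_eq_mul, norm_inv, RCLike.norm_ofReal, abs_norm,
      inv_mul_le_iff₀ (by positivity), mul_comm] at h1
    exact h1

/-- The main step: adding one functional far out of a weak* null sequence to a seminorm. -/
theorem stepA (H : SW 𝕜 E) {u : ℕ → StrongDual 𝕜 E} (hu : ∀ n, ‖u n‖ = 1)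
    (hnull : ∀ x, Tendsto (fun n => u n x) atTop (𝓝 0)) {q : Seminorm 𝕜 E} {A : ℝ} (hA1 : A < 1)
    (hA : ∀ x, ‖x‖ = 1 → q x ≤ A)
    (hq : ∀ x : ℕ → E, (∀ n, ‖x n‖ = 1) → WeaklyNull 𝕜 x → Tendsto (fun n => q (x n)) atTop (𝓝 0))
    {b : ℝ≥0} (hb : b < 1) (N : ℕ) :
    ∃ n, N ≤ n ∧ ∃ A' < (1 : ℝ), ∀ x, ‖x‖ = 1 → (q + absS b (u n)) x ≤ A' := by
  by_contra hcon
  push Not at hcon
  let p : ℕ → Seminorm 𝕜 E := fun n => q + absS b (u (n + N))
  have hp : ∀ n x, p n x = q x + b * ‖u (n + N) x‖ := fun n x => rfl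
  have hle : ∀ n x, ‖x‖ = 1 → b * ‖u n x‖ ≤ b := by
    intro n x hx
    have := (u n).le_opNorm x
    rw [hu, hx, one_mul] at this
    exact mul_le_of_le_one_right b.2 this
  have hbdd : ∀ n, BddAbove {r : ℝ | ∃ x : E, ‖x‖ = 1 ∧ r = p n x} := by
    intro n
    refine ⟨A + b, ?_⟩
    rintro r ⟨x, hx, rfl⟩
    rw [hp]
    exact add_le_add (hA x hx) (hle _ x hx)
  let s : ℕ → ℝ := fun n => sSup {r : ℝ | ∃ x : E, ‖x‖ = 1 ∧ r = p n x}
  have hs : ∀ n x, ‖x‖ = 1 → p n x ≤ s n := fun n x hx => le_csSup (hbdd n) ⟨x, hx, rfl⟩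
  have hs1 : ∀ n, 1 ≤ s n := by
    intro n
    refine le_of_forall_lt fun A' hA' => ?_
    obtain ⟨x, hx, hlt⟩ := hcon (n + N) (Nat.le_add_left _ _) A' hA'
    exact lt_of_lt_of_le hlt (hs n x hx)
  let ε : ℕ → ℝ := fun n => 1 / ((n : ℝ) + 1)
  have hε0 : ∀ n, 0 < ε n := fun n => by positivity
  have hε1 : ∀ n, ε n ≤ 1 := fun n => by
    rw [div_le_one (by positivity)]
    have : (0 : ℝ) ≤ n := Nat.cast_nonneg n
    linarith
  have hεlim : Tendsto ε atTop (𝓝 0) := tendsto_one_div_add_atTop_nhds_zero_nat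
  have hx : ∀ n, ∃ x : E, ‖x‖ = 1 ∧ (1 - ε n) * s n ≤ p n x := by
    intro n
    have h1 : (1 - ε n) * s n < s n := by
      have := hs1 n
      have := hε0 n
      nlinarith
    have hne : {r : ℝ | ∃ x : E, ‖x‖ = 1 ∧ r = p n x}.Nonempty := by
      by_contra hempty
      rw [Set.not_nonempty_iff_eq_empty] at hempty
      have h2 := hs1 n
      simp only [s, hempty, Real.sSup_empty] at h2
      norm_num at h2
    obtain ⟨r, ⟨x, hx, rfl⟩, hr⟩ := exists_lt_of_lt_csSup hne h1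
    exact ⟨x, hx, hr.le⟩
  choose x hx1 hx2 using hx
  -- the weights
  let α : ℕ → ℝ≥0 := fun n => Real.toNNReal ((1 - ε n) / s n)
  have hα : ∀ n, (α n : ℝ) = (1 - ε n) / s n := fun n =>
    Real.coe_toNNReal _ (div_nonneg (by linarith [hε1 n]) (by linarith [hs1 n]))
  have hα1 : ∀ n, (α n : ℝ) ≤ 1 := by
    intro n
    rw [hα, div_le_one (by linarith [hs1 n])]
    linarith [hs1 n, hε0 n]
  let P : ℕ → Seminorm 𝕜 E := fun n => α n • p n
  have hPapp : ∀ n y, P n y = α n * p n y := fun n y => rfl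
  have hPs : ∀ n y, ‖y‖ = 1 → P n y ≤ 1 - ε n := by
    intro n y hy
    rw [hPapp, hα]
    have h1 := hs n y hy
    have h2 := hs1 n
    rw [div_mul_eq_mul_div, div_le_iff₀ (by linarith)]
    exact mul_le_mul_of_nonneg_left h1 (by linarith [hε1 n])
  have hPp : ∀ n y, P n y ≤ p n y := by
    intro n y
    rw [hPapp]
    exact mul_le_of_le_one_left (apply_nonneg _ _) (hα1 n)
  have hPb : ∀ y, BddAbove (range fun n => P n y) := by
    intro y
    refine ⟨1 * ‖y‖, ?_⟩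
    rintro _ ⟨n, rfl⟩
    exact bdd_of_sphere (fun z hz => (hPs n z hz).trans (by linarith [hε0 n])) y
  let R := supS P hPb
  have hR1 : ∀ y, ‖y‖ = 1 → R y ≤ 1 := fun y hy => ciSup_le fun n =>
    (hPs n y hy).trans (by linarith [hε0 n])
  have hRlow : ∀ n, (1 - ε n) * (1 - ε n) ≤ P n (x n) := by
    intro n
    rw [hPapp, hα]
    have h1 := hs1 n
    have h2 : (1 - ε n) / s n * ((1 - ε n) * s n) = (1 - ε n) * (1 - ε n) := by
      field_simp
    rw [← h2]
    exact mul_le_mul_of_nonneg_left (hx2 n) (div_nonneg (by linarith [hε1 n]) (by linarith))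
  have hlim1 : Tendsto (fun n => (1 - ε n) * (1 - ε n)) atTop (𝓝 1) := by
    have h1 : Tendsto (fun n => 1 - ε n) atTop (𝓝 (1 - 0)) := tendsto_const_nhds.sub hεlim
    have := h1.mul h1
    simpa using this
  have hRlim : Tendsto (fun n => R (x n)) atTop (𝓝 1) := by
    refine tendsto_of_tendsto_of_tendsto_of_le_of_le hlim1 tendsto_const_nhds (fun n => ?_)
      fun n => hR1 _ (hx1 n)
    exact (hRlow n).trans (le_ciSup (hPb (x n)) n)
  by_cases hwn : WeaklyNull 𝕜 x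
  · -- the maximizing sequence is weakly null
    have h1 := hq x hx1 hwn
    have h2 : Tendsto (fun n => q (x n) + b) atTop (𝓝 (0 + (b : ℝ))) := h1.add_const _
    have h3 : ∀ n, (1 - ε n) * (1 - ε n) ≤ q (x n) + b := by
      intro n
      refine ((hRlow n).trans (hPp n (x n))).trans ?_
      rw [hp]
      linarith [hle (n + N) (x n) (hx1 n)]
    have h4 := le_of_tendsto_of_tendsto' hlim1 h2 h3
    rw [zero_add] at h4
    have : (b : ℝ) < 1 := by exact_mod_cast hb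
    linarith
  · -- the norm is attained
    obtain ⟨y, hy, hRy⟩ := H R 1 hR1 x hx1 hRlim hwn
    have h1 : Tendsto (fun n => p n y) atTop (𝓝 (q y + b * 0)) := by
      refine tendsto_const_nhds.add (Tendsto.const_mul _ ?_)
      have := (hnull y).norm
      rw [norm_zero] at this
      exact this.comp (tendsto_add_atTop_nat N)
    have h2 : q y + (b : ℝ) * 0 < (A + 1) / 2 := by
      have := hA y hy
      linarith
    obtain ⟨n₀, hn₀⟩ := eventually_atTop.mp (h1.eventually_lt_const h2)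
    have h3 : R y ≤ max ((A + 1) / 2) (1 - ε n₀) := by
      refine ciSup_le fun n => ?_
      rcases le_or_gt n₀ n with hn | hn
      · exact le_max_of_le_left ((hPp n y).trans (hn₀ n hn).le)
      · refine le_max_of_le_right ((hPs n y hy).trans ?_)
        have : ε n₀ ≤ ε n := by
          refine one_div_le_one_div_of_le (by positivity) ?_
          have : (n : ℝ) ≤ n₀ := by exact_mod_cast hn.le
          linarith
        linarith
    rw [hRy] at h3
    have h4 : max ((A + 1) / 2) (1 - ε n₀) < 1 := max_lt (by linarith) (by linarith [hε0 n₀])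
    linarith

/-- The weights `b k = (k + 1) / (k + 2)`. -/
noncomputable def bw (k : ℕ) : ℝ≥0 := ((k : ℝ≥0) + 1) / ((k : ℝ≥0) + 2)

theorem bw_lt (k : ℕ) : bw k < 1 := by
  rw [bw, div_lt_one (by positivity)]
  gcongr
  norm_num

theorem bw_pos (k : ℕ) : 0 < bw k := by
  rw [bw]; positivity

theorem bw_lim : Tendsto (fun k => (bw k : ℝ)) atTop (𝓝 1) := by
  have h1 : Tendsto (fun k : ℕ => 1 - 1 / ((k : ℝ) + 1 + 1)) atTop (𝓝 (1 - 0)) := by
    refine tendsto_const_nhds.sub ?_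
    have := (tendsto_add_atTop_nat 1).comp (tendsto_id (α := ℕ))
    have h2 := (tendsto_one_div_add_atTop_nhds_zero_nat (𝕜 := ℝ)).comp (tendsto_add_atTop_nat 1)
    refine h2.congr fun k => ?_
    simp
  rw [sub_zero] at h1
  refine h1.congr fun k => ?_
  rw [bw]
  push_cast
  field_simp
  ring

/-- A seminorm to which the main step applies. -/
def Good (q : Seminorm 𝕜 E) : Prop :=
  (∃ A < (1 : ℝ), ∀ x, ‖x‖ = 1 → q x ≤ A) ∧
  (∀ x : ℕ → E, (∀ n, ‖x n‖ = 1) → WeaklyNull 𝕜 x → Tendsto (fun n => q (x n)) atTop (𝓝 0))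

theorem exists_seq (H : SW 𝕜 E) {u : ℕ → StrongDual 𝕜 E} (hu : ∀ n, ‖u n‖ = 1)
    (hnull : ∀ x, Tendsto (fun n => u n x) atTop (𝓝 0)) :
    ∃ V : ℕ → StrongDual 𝕜 E, (∀ n, ‖V n‖ = 1) ∧
      ∀ n x, ‖x‖ = 1 → ∑ k ∈ Finset.range n, (bw k : ℝ) * ‖V k x‖ ≤ 1 := by
  have step : ∀ (k : ℕ) (q : {q : Seminorm 𝕜 E // Good q}),
      ∃ v : StrongDual 𝕜 E, ‖v‖ = 1 ∧ Good (q.1 + absS (bw k) v) := by
    rintro k ⟨q, ⟨A, hA1, hA⟩, hq⟩
    obtain ⟨n, -, A', hA'1, hA'⟩ := stepA H hu hnull hA1 hA hq (bw_lt k) 0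
    refine ⟨u n, hu n, ⟨A', hA'1, hA'⟩, fun x hx hxn => ?_⟩
    have h1 := (hq x hx hxn)
    have h2 : Tendsto (fun m => (bw k : ℝ) * ‖u n (x m)‖) atTop (𝓝 ((bw k : ℝ) * 0)) := by
      refine Tendsto.const_mul _ ?_
      have := (hxn (u n)).norm
      rwa [norm_zero] at this
    have h3 := h1.add h2
    rw [mul_zero, add_zero] at h3
    exact h3
  choose v hv1 hv2 using step
  let F : ℕ → {q : Seminorm 𝕜 E // Good q} := fun n => Nat.rec
    ⟨0, ⟨0, zero_lt_one, fun x _ => le_rfl⟩, fun x _ _ => tendsto_const_nhds⟩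
    (fun k q => ⟨q.1 + absS (bw k) (v k q), hv2 k q⟩) n
  have hF : ∀ n x, (F n).1 x = ∑ k ∈ Finset.range n, (bw k : ℝ) * ‖v k (F k) x‖ := by
    intro n x
    induction n with
    | zero => rfl
    | succ n ih =>
      rw [Finset.sum_range_succ, ← ih]
      rfl
  refine ⟨fun k => v k (F k), fun k => hv1 k (F k), fun n x hx => ?_⟩
  obtain ⟨⟨A, hA1, hA⟩, -⟩ := (F n).2
  rw [← hF]
  exact (hA x hx).trans hA1.le

/-- There is no weak* null sequence of norm one functionals. -/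
theorem no_null (H : SW 𝕜 E) {u : ℕ → StrongDual 𝕜 E} (hu : ∀ n, ‖u n‖ = 1)
    (hnull : ∀ x, Tendsto (fun n => u n x) atTop (𝓝 0)) : False := by
  obtain ⟨V, hV1, hV⟩ := exists_seq H hu hnull
  have hnn : ∀ x k, 0 ≤ (bw k : ℝ) * ‖V k x‖ := fun x k => by positivity
  have hVx : ∀ n x, ∑ k ∈ Finset.range n, (bw k : ℝ) * ‖V k x‖ ≤ ‖x‖ := by
    intro n x
    by_cases hx : x = 0
    · simp [hx]
    · have hx0 : ‖x‖ ≠ 0 := norm_ne_zero_iff.mpr hx
      have h1 := hV n (((‖x‖ : ℝ) : 𝕜)⁻¹ • x) (by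
        rw [norm_smul, norm_inv, RCLike.norm_ofReal, abs_norm, inv_mul_cancel₀ hx0])
      simp_rw [map_smul, norm_smul, norm_inv, RCLike.norm_ofReal, abs_norm] at h1
      have h2 : ∑ k ∈ Finset.range n, (bw k : ℝ) * (‖x‖⁻¹ * ‖V k x‖) =
          ‖x‖⁻¹ * ∑ k ∈ Finset.range n, (bw k : ℝ) * ‖V k x‖ := by
        rw [Finset.mul_sum]
        exact Finset.sum_congr rfl fun k _ => by ring
      rw [h2, inv_mul_le_iff₀ (by positivity), mul_one] at h1
      exact h1
  have hsum : ∀ x, Summable fun k => (bw k : ℝ) * ‖V k x‖ := fun x =>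
    summable_of_sum_range_le (hnn x) (hVx · x)
  have htsum : ∀ x, ∑' k, (bw k : ℝ) * ‖V k x‖ ≤ ‖x‖ := fun x =>
    Real.tsum_le_of_sum_range_le (hnn x) (hVx · x)
  -- the functional
  let a : ℕ → ℝ := fun k => (bw k : ℝ) * (bw k : ℝ)
  have hab : ∀ k, a k < bw k := by
    intro k
    have h1 : (bw k : ℝ) < 1 := by exact_mod_cast bw_lt k
    have h2 : (0 : ℝ) < bw k := by exact_mod_cast bw_pos k
    exact mul_lt_of_lt_one_right h2 h1
  have ha0 : ∀ k, 0 ≤ a k := fun k => by positivity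
  have hnorm : ∀ x k, ‖((a k : ℝ) : 𝕜) * V k x‖ = a k * ‖V k x‖ := by
    intro x k
    rw [norm_mul, RCLike.norm_ofReal, abs_of_nonneg (ha0 k)]
  have hsum' : ∀ x, Summable fun k => ((a k : ℝ) : 𝕜) * V k x := fun x =>
    Summable.of_norm_bounded (hsum x) fun k => by
      rw [hnorm]
      exact mul_le_mul_of_nonneg_right (hab k).le (norm_nonneg _)
  have hsuma : ∀ x, Summable fun k => a k * ‖V k x‖ := fun x =>
    Summable.of_nonneg_of_le (fun k => mul_nonneg (ha0 k) (norm_nonneg _))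
      (fun k => mul_le_mul_of_nonneg_right (hab k).le (norm_nonneg _)) (hsum x)
  let g₀ : E →ₗ[𝕜] 𝕜 :=
    { toFun := fun x => ∑' k, ((a k : ℝ) : 𝕜) * V k x
      map_add' := fun x y => by
        rw [← (hsum' x).tsum_add (hsum' y)]
        exact tsum_congr fun k => by rw [map_add, mul_add]
      map_smul' := fun c x => by
        rw [RingHom.id_apply, smul_eq_mul, ← tsum_mul_left]
        exact tsum_congr fun k => by rw [map_smul, smul_eq_mul]; ring }
  have hg₀ : ∀ x, ‖g₀ x‖ ≤ ∑' k, a k * ‖V k x‖ := by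
    intro x
    refine (norm_tsum_le_tsum_norm ?_).trans (le_of_eq (tsum_congr (hnorm x)))
    exact (hsuma x).congr fun k => (hnorm x k).symm
  have hab' : ∀ x, ∑' k, a k * ‖V k x‖ ≤ ∑' k, (bw k : ℝ) * ‖V k x‖ := fun x =>
    (hsuma x).tsum_le_tsum (fun k => mul_le_mul_of_nonneg_right (hab k).le (norm_nonneg _)) (hsum x)
  let g : StrongDual 𝕜 E := g₀.mkContinuous 1 fun x => by
    rw [one_mul]
    exact ((hg₀ x).trans (hab' x)).trans (htsum x)
  have hg : ∀ x, g x = ∑' k, ((a k : ℝ) : 𝕜) * V k x := fun x => rfl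
  have hgle : ∀ x, ‖g x‖ ≤ ∑' k, a k * ‖V k x‖ := hg₀
  have hg1 : ∀ x, ‖x‖ = 1 → absS 1 g x ≤ 1 := by
    intro x hx
    rw [absS_apply, NNReal.coe_one, one_mul]
    have := ((hgle x).trans (hab' x)).trans (htsum x)
    rwa [hx] at this
  -- a maximizing sequence
  let ε : ℕ → ℝ := fun n => 1 / ((n : ℝ) + 1)
  have hε0 : ∀ n, 0 < ε n := fun n => by positivity
  have hεlim : Tendsto ε atTop (𝓝 0) := tendsto_one_div_add_atTop_nhds_zero_nat
  have hx : ∀ n, ∃ x : E, ‖x‖ = 1 ∧ 1 - ε n ≤ ‖V n x‖ := by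
    intro n
    by_contra hcon
    push Not at hcon
    have h1 : ‖V n‖ ≤ max (1 - ε n) 0 := by
      refine ContinuousLinearMap.opNorm_le_bound _ (le_max_right _ _) fun y => ?_
      refine bdd_of_sphere (p := absS 1 (V n)) (fun z hz => ?_) y |>.trans' ?_
      · rw [absS_apply, NNReal.coe_one, one_mul]
        exact (hcon z hz).le.trans (le_max_left _ _)
      · rw [absS_apply, NNReal.coe_one, one_mul]
    rw [hV1] at h1
    have h2 : max (1 - ε n) 0 < 1 := max_lt (by linarith [hε0 n]) zero_lt_one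
    linarith
  choose x hx1 hx2 using hx
  have hglow : ∀ n, (a n + bw n) * ‖V n (x n)‖ - 1 ≤ ‖g (x n)‖ := by
    intro n
    have h1 := (hsum' (x n)).tsum_eq_add_tsum_ite n
    rw [← hg] at h1
    have h2 := (hsum (x n)).tsum_eq_add_tsum_ite n
    have h3 : ‖∑' k, ite (k = n) 0 (((a k : ℝ) : 𝕜) * V k (x n))‖ ≤
        ∑' k, ite (k = n) 0 ((bw k : ℝ) * ‖V k (x n)‖) := by
      have hs1 : Summable fun k => ite (k = n) 0 ((bw k : ℝ) * ‖V k (x n)‖) := by
        refine Summable.of_nonneg_of_le (fun k => ?_) (fun k => ?_) (hsum (x n))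
        · split_ifs
          · exact le_rfl
          · exact hnn _ _
        · split_ifs
          · exact hnn _ _
          · exact le_rfl
      refine tsum_of_norm_bounded hs1.hasSum fun k => ?_
      split_ifs
      · simp
      · rw [hnorm]
        exact mul_le_mul_of_nonneg_right (hab k).le (norm_nonneg _)
    have h4 := htsum (x n)
    rw [h2, hx1] at h4
    have h5 : ‖((a n : ℝ) : 𝕜) * V n (x n)‖ ≤ ‖g (x n)‖ +
        ‖∑' k, ite (k = n) 0 (((a k : ℝ) : 𝕜) * V k (x n))‖ := by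
      have h6 : ((a n : ℝ) : 𝕜) * V n (x n) = g (x n) -
          ∑' k, ite (k = n) 0 (((a k : ℝ) : 𝕜) * V k (x n)) := by rw [h1]; ring
      rw [h6]
      exact norm_sub_le _ _
    rw [hnorm] at h5
    linarith
  have hVlim : Tendsto (fun n => ‖V n (x n)‖) atTop (𝓝 1) := by
    have h1 : Tendsto (fun n => 1 - ε n) atTop (𝓝 1) := by
      have := (tendsto_const_nhds (x := (1 : ℝ))).sub hεlim
      rwa [sub_zero] at this
    refine tendsto_of_tendsto_of_tendsto_of_le_of_le h1 tendsto_const_nhds hx2 fun n => ?_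
    have := (V n).le_opNorm (x n)
    rwa [hV1, hx1, one_mul] at this
  have halim : Tendsto a atTop (𝓝 1) := by
    have := bw_lim.mul bw_lim
    rwa [one_mul] at this
  have hlim : Tendsto (fun n => ‖g (x n)‖) atTop (𝓝 1) := by
    have h1 : Tendsto (fun n => (a n + bw n) * ‖V n (x n)‖ - 1) atTop (𝓝 ((1 + 1) * 1 - 1)) :=
      ((halim.add bw_lim).mul hVlim).sub_const 1
    have h2 : ((1 : ℝ) + 1) * 1 - 1 = 1 := by norm_num
    rw [h2] at h1
    refine tendsto_of_tendsto_of_tendsto_of_le_of_le h1 tendsto_const_nhds hglow fun n => ?_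
    have := hg1 (x n) (hx1 n)
    rwa [absS_apply, NNReal.coe_one, one_mul] at this
  have hwn : ¬ WeaklyNull 𝕜 x := by
    intro hwn
    have h1 := (hwn g).norm
    rw [norm_zero] at h1
    exact zero_ne_one (tendsto_nhds_unique h1 hlim)
  obtain ⟨y, hy, hgy⟩ := H (absS 1 g) 1 hg1 x hx1 (by
    simpa only [absS_apply, NNReal.coe_one, one_mul] using hlim) hwn
  rw [absS_apply, NNReal.coe_one, one_mul] at hgy
  by_cases hall : ∀ k, V k y = 0
  · have : g y = 0 := by rw [hg]; simp [hall]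
    rw [this, norm_zero] at hgy
    exact zero_ne_one hgy
  · push Not at hall
    obtain ⟨k, hk⟩ := hall
    have h1 : ∑' k, a k * ‖V k y‖ < ∑' k, (bw k : ℝ) * ‖V k y‖ := by
      refine (hsuma y).tsum_lt_tsum (i := k)
        (fun k => mul_le_mul_of_nonneg_right (hab k).le (norm_nonneg _)) ?_ (hsum y)
      exact mul_lt_mul_of_pos_right (hab k) (norm_pos_iff.mpr hk)
    have h2 := hgle y
    have h3 := htsum y
    rw [hy] at h3
    linarith

end Pool.Agent.V1198.WMP
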