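import Pool.Agent.V1198.WMP.CZero

set_option autoImplicit false

namespace Pool.Agent.V1198.WMP

open Filter Topology Set

universe u v

variable {𝕜 : Type v} [RCLike 𝕜] {E : Type u} [NormedAddCommGroup E] [NormedSpace 𝕜 E]

/-- Real convexity of a set of functionals. -/
def RC (C : Set (StrongDual 𝕜 E)) : Prop :=
  ∀ f ∈ C, ∀ g ∈ C, ∀ a b : ℝ, 0 ≤ a → 0 ≤ b → a + b = 1 → ((a : 𝕜) • f + (b : 𝕜) • g) ∈ C

/-- The convex hull of the tail of a sequence of functionals. -/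
def K (z : ℕ → StrongDual 𝕜 E) (n : ℕ) : Set (StrongDual 𝕜 E) :=
  {g | ∀ C : Set (StrongDual 𝕜 E), RC C → (∀ i, n ≤ i → z i ∈ C) → g ∈ C}

theorem RC_K (z : ℕ → StrongDual 𝕜 E) (n : ℕ) : RC (K z n) := by
  intro f hf g hg a b ha hb hab C hC hz
  exact hC f (hf C hC hz) g (hg C hC hz) a b ha hb hab

theorem mem_K (z : ℕ → StrongDual 𝕜 E) {n i : ℕ} (h : n ≤ i) : z i ∈ K z n := by
  intro C _ hz
  exact hz i h

theorem K_subset {z : ℕ → StrongDual 𝕜 E} {n : ℕ} {C : Set (StrongDual 𝕜 E)} (hC : RC C)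
    (h : ∀ i, n ≤ i → z i ∈ C) : K z n ⊆ C := fun _ hg => hg C hC h

theorem K_mono {z : ℕ → StrongDual 𝕜 E} {m n : ℕ} (h : m ≤ n) : K z n ⊆ K z m :=
  K_subset (RC_K z m) fun _ hi => mem_K z (h.trans hi)

theorem K_trans {z z' : ℕ → StrongDual 𝕜 E} (h : ∀ j, z' j ∈ K z j) (n : ℕ) : K z' n ⊆ K z n :=
  K_subset (RC_K z n) fun i hi => K_mono hi (h i)

theorem RC_ball : RC {g : StrongDual 𝕜 E | ‖g‖ ≤ 1} := by
  intro f hf g hg a b ha hb hab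
  simp only [Set.mem_ofPred_eq] at *
  refine (norm_add_le _ _).trans ?_
  rw [norm_smul, norm_smul, RCLike.norm_ofReal, RCLike.norm_ofReal, abs_of_nonneg ha,
    abs_of_nonneg hb]
  nlinarith

theorem RC_near (c : 𝕜) (x : E) (τ : ℝ) : RC {g : StrongDual 𝕜 E | ‖c - g x‖ ≤ τ} := by
  intro f hf g hg a b ha hb hab
  simp only [Set.mem_ofPred_eq] at *
  have h1 : c - ((a : 𝕜) • f + (b : 𝕜) • g) x = (a : 𝕜) * (c - f x) + (b : 𝕜) * (c - g x) := by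
    have h2 : ((a : 𝕜) + (b : 𝕜)) = 1 := by exact_mod_cast congrArg (fun t : ℝ => (t : 𝕜)) hab
    change c - ((a : 𝕜) * f x + (b : 𝕜) * g x) = _
    linear_combination (-c) * h2
  rw [h1]
  refine (norm_add_le _ _).trans ?_
  rw [norm_mul, norm_mul, RCLike.norm_ofReal, RCLike.norm_ofReal, abs_of_nonneg ha,
    abs_of_nonneg hb]
  calc a * ‖c - f x‖ + b * ‖c - g x‖ ≤ a * τ + b * τ := by gcongr
    _ = τ := by rw [← add_mul, hab, one_mul]

theorem re_comb (f g : StrongDual 𝕜 E) (a b : ℝ) (x : E) :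
    RCLike.re (((a : 𝕜) • f + (b : 𝕜) • g) x) = a * RCLike.re (f x) + b * RCLike.re (g x) := by
  change RCLike.re ((a : 𝕜) * f x + (b : 𝕜) * g x) = _
  rw [map_add, RCLike.re_ofReal_mul, RCLike.re_ofReal_mul]

/-- `limsup |v(x) - z_j(x)| ≤ t` on the unit ball. -/
def B (w : StrongDual 𝕜 E) (z : ℕ → StrongDual 𝕜 E) (t : ℝ) : Prop :=
  ∀ x : E, ‖x‖ ≤ 1 → ∀ ε : ℝ, 0 < ε → ∀ᶠ j in atTop, ‖w x - z j x‖ ≤ t + ε

theorem B_nonneg {w : StrongDual 𝕜 E} {z : ℕ → StrongDual 𝕜 E} {t : ℝ} (h : B w z t) : 0 ≤ t := by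
  refine le_of_forall_pos_le_add fun ε hε => ?_
  obtain ⟨j, hj⟩ := (h 0 (by simp) ε hε).exists
  simpa using hj

/-- The remainders `R n = 100 ^ (-n)`. -/
noncomputable def R (n : ℕ) : ℝ := (1 / 100) ^ n

theorem R_pos (n : ℕ) : 0 < R n := by unfold R; positivity
theorem R_zero : R 0 = 1 := by simp [R]
theorem R_succ (n : ℕ) : R (n + 1) = R n / 100 := by unfold R; rw [pow_succ]; ring
theorem R_le (n : ℕ) : R n ≤ 1 := by unfold R; exact pow_le_one₀ (by norm_num) (by norm_num)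
theorem R_lim : Tendsto R atTop (𝓝 0) :=
  tendsto_pow_atTop_nhds_zero_of_lt_one (by norm_num) (by norm_num)

/-- The feasible values. -/
def Fe (n : ℕ) (w : StrongDual 𝕜 E) (z : ℕ → StrongDual 𝕜 E) : Set ℝ :=
  {t | ∃ y ∈ K z n, ∃ z' : ℕ → StrongDual 𝕜 E, (∀ j, z' j ∈ K z j) ∧
    B (w + ((2 * R n : ℝ) : 𝕜) • y) z' t}

theorem Fe_bdd (n : ℕ) (w : StrongDual 𝕜 E) (z : ℕ → StrongDual 𝕜 E) : BddBelow (Fe n w z) :=
  ⟨0, fun _ ⟨_, _, _, _, h⟩ => B_nonneg h⟩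

theorem Fe_mem {n : ℕ} {w : StrongDual 𝕜 E} {z : ℕ → StrongDual 𝕜 E} (hz : ∀ i, ‖z i‖ ≤ 1) :
    ‖w‖ + 2 * R n + 1 ∈ Fe n w z := by
  refine ⟨z n, mem_K z le_rfl, z, fun j => mem_K z le_rfl, fun x hx ε hε => ?_⟩
  refine Eventually.of_forall fun j => ?_
  have hR := R_pos n
  have h1 : ‖(w + ((2 * R n : ℝ) : 𝕜) • z n) x‖ ≤ ‖w‖ + 2 * R n := by
    have h2 := (w + ((2 * R n : ℝ) : 𝕜) • z n).le_opNorm x
    have h3 : ‖w + ((2 * R n : ℝ) : 𝕜) • z n‖ ≤ ‖w‖ + 2 * R n := by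
      refine (norm_add_le _ _).trans ?_
      rw [norm_smul, RCLike.norm_ofReal, abs_of_nonneg (by linarith)]
      have := hz n
      nlinarith
    calc _ ≤ _ := h2
      _ ≤ (‖w‖ + 2 * R n) * 1 := by gcongr
      _ = _ := mul_one _
  have h2 : ‖z j x‖ ≤ 1 := by
    have h3 := (z j).le_opNorm x
    calc _ ≤ _ := h3
      _ ≤ 1 * 1 := by gcongr; exact hz j
      _ = 1 := one_mul _
  refine (norm_sub_le _ _).trans ?_
  linarith

/-- The data of the construction. -/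
structure Data (F : ℕ → StrongDual 𝕜 E) where
  /-- the partial sums -/
  w : ℕ → StrongDual 𝕜 E
  /-- the sequences -/
  z : ℕ → ℕ → StrongDual 𝕜 E
  /-- the chosen functionals -/
  Y : ℕ → StrongDual 𝕜 E
  w0 : w 0 = 0
  z0 : z 0 = F
  hw : ∀ n, w (n + 1) = w n + ((2 * (R n - R (n + 1)) : ℝ) : 𝕜) • Y n
  hY : ∀ n, Y n ∈ K (z n) n
  hz : ∀ n j, z (n + 1) j ∈ K (z n) j
  hB : ∀ n, ∃ t ≤ sInf (Fe n (w n) (z n)) + R (n + 1) / 100 * (1 / 2) ^ (n + 1),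
    B (w n + ((2 * R n : ℝ) : 𝕜) • Y n) (z (n + 1)) t

theorem exists_data {F : ℕ → StrongDual 𝕜 E} (hF : ∀ n, ‖F n‖ ≤ 1) : Nonempty (Data F) := by
  have step : ∀ (n : ℕ) (s : {s : StrongDual 𝕜 E × (ℕ → StrongDual 𝕜 E) // ∀ i, ‖s.2 i‖ ≤ 1}),
      ∃ (y : StrongDual 𝕜 E) (z' : ℕ → StrongDual 𝕜 E), (∀ i, ‖z' i‖ ≤ 1) ∧ y ∈ K s.1.2 n ∧
        (∀ j, z' j ∈ K s.1.2 j) ∧
        ∃ t ≤ sInf (Fe n s.1.1 s.1.2) + R (n + 1) / 100 * (1 / 2) ^ (n + 1),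
          B (s.1.1 + ((2 * R n : ℝ) : 𝕜) • y) z' t := by
    rintro n ⟨⟨w, z⟩, hz⟩
    have hR := R_pos (n + 1)
    obtain ⟨t, ⟨y, hy, z', hz', hB⟩, ht⟩ := exists_lt_of_csInf_lt (s := Fe n w z) ⟨_, Fe_mem hz⟩
      (show sInf (Fe n w z) < sInf (Fe n w z) + R (n + 1) / 100 * (1 / 2) ^ (n + 1) by
        have : 0 < R (n + 1) / 100 * (1 / 2) ^ (n + 1) := by positivity
        linarith)
    refine ⟨y, z', fun i => ?_, hy, hz', t, ht.le, hB⟩
    exact K_subset RC_ball (fun i _ => hz i) (hz' i)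
  choose y z' h1 h2 h3 h4 using step
  let S : ℕ → {s : StrongDual 𝕜 E × (ℕ → StrongDual 𝕜 E) // ∀ i, ‖s.2 i‖ ≤ 1} := fun n =>
    Nat.rec ⟨(0, F), hF⟩ (fun n s => ⟨(s.1.1 + ((2 * (R n - R (n + 1)) : ℝ) : 𝕜) • y n s, z' n s),
      h1 n s⟩) n
  exact ⟨{ w := fun n => (S n).1.1
           z := fun n => (S n).1.2
           Y := fun n => y n (S n)
           w0 := rfl
           z0 := rfl
           hw := fun n => rfl
           hY := fun n => h2 n (S n)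
           hz := fun n => h3 n (S n)
           hB := fun n => h4 n (S n) }⟩

namespace Data

variable {F : ℕ → StrongDual 𝕜 E} (D : Data F)

theorem K_sub {m n : ℕ} (h : n ≤ m) (j : ℕ) : K (D.z m) j ⊆ K (D.z n) j := by
  induction m, h using Nat.le_induction with
  | base => exact subset_rfl
  | succ m _ ih => exact (K_trans (D.hz m) j).trans ih

theorem Y_mem {m n : ℕ} (h : n ≤ m) : D.Y m ∈ K (D.z n) m := D.K_sub h m (D.hY m)

theorem K_sub_F (n j : ℕ) : K (D.z n) j ⊆ K F j := by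
  have := D.K_sub (Nat.zero_le n) j
  rwa [D.z0] at this

theorem norm_Y (hF : ∀ n, ‖F n‖ ≤ 1) (n : ℕ) : ‖D.Y n‖ ≤ 1 :=
  K_subset RC_ball (fun i _ => hF i) (D.K_sub_F n n (D.hY n))

theorem norm_Y_apply (hF : ∀ n, ‖F n‖ ≤ 1) (n : ℕ) {x : E} (hx : ‖x‖ ≤ 1) : ‖D.Y n x‖ ≤ 1 := by
  calc _ ≤ _ := (D.Y n).le_opNorm x
    _ ≤ 1 * 1 := by gcongr; exact D.norm_Y hF n
    _ = 1 := one_mul _

/-- Feasible values decrease. -/
theorem Fe_sub {m n : ℕ} (h : n ≤ m) : Fe m (D.w m) (D.z m) ⊆ Fe n (D.w n) (D.z n) := by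
  induction m, h using Nat.le_induction with
  | base => exact subset_rfl
  | succ m _ ih =>
    refine Subset.trans ?_ ih
    rintro t ⟨y, hy, z', hz', hB⟩
    refine ⟨((99 / 100 : ℝ) : 𝕜) • D.Y m + ((1 / 100 : ℝ) : 𝕜) • y, ?_, z', ?_, ?_⟩
    · refine RC_K _ _ _ (D.hY m) _ ?_ _ _ (by norm_num) (by norm_num) (by norm_num)
      exact K_mono (Nat.le_succ m) (K_trans (D.hz m) _ hy)
    · exact fun j => K_trans (D.hz m) j (hz' j)
    · have : D.w (m + 1) + ((2 * R (m + 1) : ℝ) : 𝕜) • y =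
          D.w m + ((2 * R m : ℝ) : 𝕜) • (((99 / 100 : ℝ) : 𝕜) • D.Y m + ((1 / 100 : ℝ) : 𝕜) • y) := by
        rw [D.hw, R_succ, smul_add, smul_smul, smul_smul, ← RCLike.ofReal_mul, ← RCLike.ofReal_mul,
          add_assoc]
        congr 3
        · congr 1; ring
        · congr 1; ring
      rwa [this] at hB

/-- The optimal values. -/
noncomputable def al (n : ℕ) : ℝ := sInf (Fe n (D.w n) (D.z n))

theorem al_mono (hF : ∀ n, ‖F n‖ ≤ 1) {m n : ℕ} (h : n ≤ m) : D.al n ≤ D.al m := by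
  refine csInf_le_csInf (Fe_bdd _ _ _) ⟨_, Fe_mem fun i => ?_⟩ (D.Fe_sub h)
  exact K_subset RC_ball (fun i _ => hF i) (D.K_sub_F m i (mem_K _ le_rfl))

theorem norm_w (hF : ∀ n, ‖F n‖ ≤ 1) (n : ℕ) : ‖D.w n‖ ≤ 2 * (1 - R n) := by
  induction n with
  | zero => rw [D.w0, norm_zero, R_zero]; norm_num
  | succ n ih =>
    rw [D.hw]
    refine (norm_add_le _ _).trans ?_
    have h1 := R_pos n
    have h2 := R_succ n
    rw [norm_smul, RCLike.norm_ofReal, abs_of_nonneg (by linarith)]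
    have h3 := D.norm_Y hF n
    have h4 : 2 * (R n - R (n + 1)) * ‖D.Y n‖ ≤ 2 * (R n - R (n + 1)) * 1 := by
      refine mul_le_mul_of_nonneg_left h3 (by linarith)
    linarith

theorem norm_sub_w (hF : ∀ n, ‖F n‖ ≤ 1) {m n : ℕ} (h : n ≤ m) :
    ‖D.w m - D.w n‖ ≤ 2 * (R n - R m) := by
  induction m, h using Nat.le_induction with
  | base => simp
  | succ m _ ih =>
    have e : D.w (m + 1) - D.w n = (D.w m - D.w n) + ((2 * (R m - R (m + 1)) : ℝ) : 𝕜) • D.Y m := by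
      rw [D.hw]; abel
    rw [e]
    refine (norm_add_le _ _).trans ?_
    have h1 := R_pos m
    have h2 := R_succ m
    rw [norm_smul, RCLike.norm_ofReal, abs_of_nonneg (by linarith)]
    have h3 := D.norm_Y hF m
    have h4 : 2 * (R m - R (m + 1)) * ‖D.Y m‖ ≤ 2 * (R m - R (m + 1)) * 1 := by
      refine mul_le_mul_of_nonneg_left h3 (by linarith)
    linarith

theorem al_le (hF : ∀ n, ‖F n‖ ≤ 1) (n : ℕ) : D.al n ≤ 3 := by
  have h1 : ‖D.w n‖ + 2 * R n + 1 ∈ Fe n (D.w n) (D.z n) := Fe_mem fun i =>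
    K_subset RC_ball (fun i _ => hF i) (D.K_sub_F n i (mem_K _ le_rfl))
  have h2 := csInf_le (Fe_bdd _ _ _) h1
  have h3 := D.norm_w hF n
  unfold al
  linarith

theorem al_ge (hF : ∀ n, ‖F n‖ ≤ 1) {x : ℕ → E} (hx : ∀ k, ‖x k‖ ≤ 1)
    (h0 : ∀ n k, k < n → RCLike.re (F n (x k)) = 0)
    (h1 : ∀ n k, n ≤ k → 4 / 5 ≤ RCLike.re (F n (x k))) (n : ℕ) : 8 / 5 ≤ D.al n := by
  have hC1 : RC {g : StrongDual 𝕜 E | ∃ M₀, ∀ M, M₀ ≤ M → 4 / 5 ≤ RCLike.re (g (x M))} := by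
    rintro f ⟨Mf, hf⟩ g ⟨Mg, hg⟩ a b ha hb hab
    refine ⟨max Mf Mg, fun M hM => ?_⟩
    have e1 := hf M (le_of_max_le_left hM)
    have e2 := hg M (le_of_max_le_right hM)
    rw [re_comb]
    calc (4 / 5 : ℝ) = a * (4 / 5) + b * (4 / 5) := by rw [← add_mul, hab, one_mul]
      _ ≤ _ := by gcongr
  have hC0 : ∀ M, RC {g : StrongDual 𝕜 E | RCLike.re (g (x M)) = 0} := by
    intro M f hf g hg a b ha hb hab
    simp only [Set.mem_ofPred_eq] at *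
    rw [re_comb, hf, hg, mul_zero, mul_zero, add_zero]
  have hK1 : ∀ j, ∀ g ∈ K F j, ∃ M₀, ∀ M, M₀ ≤ M → 4 / 5 ≤ RCLike.re (g (x M)) :=
    fun j => K_subset hC1 fun i _ => ⟨i, fun M hM => h1 i M hM⟩
  have hK0 : ∀ M j, M < j → ∀ g ∈ K F j, RCLike.re (g (x M)) = 0 :=
    fun M j hj => K_subset (hC0 M) fun i hi => h0 i M (lt_of_lt_of_le hj hi)
  have hre : ∀ (c : ℝ) (g : StrongDual 𝕜 E) (y : E),
      RCLike.re (((c : 𝕜) • g) y) = c * RCLike.re (g y) := fun c g y => by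
    change RCLike.re ((c : 𝕜) * g y) = _
    rw [RCLike.re_ofReal_mul]
  have hw : ∀ n, ∃ M₀, ∀ M, M₀ ≤ M → 2 * (1 - R n) * (4 / 5) ≤ RCLike.re (D.w n (x M)) := by
    intro n
    induction n with
    | zero => exact ⟨0, fun M _ => by rw [D.w0, R_zero]; simp⟩
    | succ n ih =>
      obtain ⟨M₁, hM₁⟩ := ih
      obtain ⟨M₂, hM₂⟩ := hK1 n (D.Y n) (D.K_sub_F n n (D.hY n))
      refine ⟨max M₁ M₂, fun M hM => ?_⟩
      have e1 := hM₁ M (le_of_max_le_left hM)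
      have e2 := hM₂ M (le_of_max_le_right hM)
      have e3 : RCLike.re (D.w (n + 1) (x M)) = RCLike.re (D.w n (x M)) +
          2 * (R n - R (n + 1)) * RCLike.re (D.Y n (x M)) := by
        rw [D.hw, add_apply, map_add, hre]
      rw [e3]
      have h2 := R_pos n
      have h3 := R_succ n
      have h4 : 2 * (R n - R (n + 1)) * (4 / 5) ≤ 2 * (R n - R (n + 1)) * RCLike.re (D.Y n (x M)) :=
        mul_le_mul_of_nonneg_left e2 (by linarith)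
      linarith
  refine le_csInf ⟨_, Fe_mem fun i =>
    K_subset RC_ball (fun i _ => hF i) (D.K_sub_F n i (mem_K _ le_rfl))⟩ ?_
  rintro t ⟨y, hy, z', hz', hB⟩
  obtain ⟨M₁, hM₁⟩ := hw n
  obtain ⟨M₂, hM₂⟩ := hK1 n y (D.K_sub_F n n hy)
  let M := max M₁ M₂
  refine le_of_forall_pos_le_add fun ε hε => ?_
  obtain ⟨j, hj, hjM⟩ := ((hB (x M) (hx M) ε hε).and (eventually_gt_atTop M)).exists
  refine le_trans ?_ hj
  refine le_trans ?_ (RCLike.re_le_norm _)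
  have e1 := hM₁ M (le_max_left _ _)
  have e2 := hM₂ M (le_max_right _ _)
  have e3 : RCLike.re (z' j (x M)) = 0 := hK0 M j hjM _ (D.K_sub_F n j (hz' j))
  rw [map_sub, e3, sub_zero, add_apply, map_add, hre]
  have h2 := R_pos n
  have h4 : 2 * R n * (4 / 5) ≤ 2 * R n * RCLike.re (y (x M)) :=
    mul_le_mul_of_nonneg_left e2 (by linarith)
  linarith

end Data

/-- The seminorm `limsup |G(x) - Y_j(x)|`. -/
noncomputable def limS (G : StrongDual 𝕜 E) (Y : ℕ → StrongDual 𝕜 E) (hY : ∀ j, ‖Y j‖ ≤ 1) :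
    Seminorm 𝕜 E :=
  have hne : ∀ x, ‖G x‖ + ‖x‖ ∈ {t : ℝ | ∀ᶠ j in atTop, ‖G x - Y j x‖ ≤ t} := fun x => by
    refine Eventually.of_forall fun j => (norm_sub_le _ _).trans ?_
    have h1 := (Y j).le_opNorm x
    have h2 : ‖Y j‖ * ‖x‖ ≤ 1 * ‖x‖ := mul_le_mul_of_nonneg_right (hY j) (norm_nonneg _)
    linarith
  have hbd : ∀ x, BddBelow {t : ℝ | ∀ᶠ j in atTop, ‖G x - Y j x‖ ≤ t} := fun x =>
    ⟨0, fun t ht => by
      obtain ⟨j, hj⟩ := Eventually.exists ht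
      exact (norm_nonneg _).trans hj⟩
  Seminorm.ofSMulLE (fun x => sInf {t : ℝ | ∀ᶠ j in atTop, ‖G x - Y j x‖ ≤ t})
    (by
      refine le_antisymm (csInf_le (hbd 0) ?_) (le_csInf ⟨_, hne 0⟩ ?_)
      · exact Eventually.of_forall fun j => by simp
      · intro t ht
        obtain ⟨j, hj⟩ := Eventually.exists ht
        exact (norm_nonneg _).trans hj)
    (fun x y => by
      refine le_of_forall_pos_le_add fun ε hε => ?_
      obtain ⟨a, ha, ha'⟩ := exists_lt_of_csInf_lt ⟨_, hne x⟩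
        (lt_add_of_pos_right (sInf {t : ℝ | ∀ᶠ j in atTop, ‖G x - Y j x‖ ≤ t}) (half_pos hε))
      obtain ⟨b, hb, hb'⟩ := exists_lt_of_csInf_lt ⟨_, hne y⟩
        (lt_add_of_pos_right (sInf {t : ℝ | ∀ᶠ j in atTop, ‖G y - Y j y‖ ≤ t}) (half_pos hε))
      have h : a + b ∈ {t : ℝ | ∀ᶠ j in atTop, ‖G (x + y) - Y j (x + y)‖ ≤ t} := by
        filter_upwards [ha, hb] with j h1 h2
        have : G (x + y) - Y j (x + y) = (G x - Y j x) + (G y - Y j y) := by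
          rw [map_add, map_add]; ring
        rw [this]
        exact (norm_add_le _ _).trans (add_le_add h1 h2)
      have := csInf_le (hbd _) h
      linarith)
    (fun c x => by
      refine le_of_forall_pos_le_add fun ε hε => ?_
      obtain ⟨a, ha, ha'⟩ := exists_lt_of_csInf_lt ⟨_, hne x⟩
        (lt_add_of_pos_right (sInf {t : ℝ | ∀ᶠ j in atTop, ‖G x - Y j x‖ ≤ t})
          (show 0 < ε / (‖c‖ + 1) by positivity))
      have h : ‖c‖ * a ∈ {t : ℝ | ∀ᶠ j in atTop, ‖G (c • x) - Y j (c • x)‖ ≤ t} := by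
        filter_upwards [ha] with j h1
        have : G (c • x) - Y j (c • x) = c * (G x - Y j x) := by
          rw [map_smul, map_smul, smul_eq_mul, smul_eq_mul]; ring
        rw [this, norm_mul]
        exact mul_le_mul_of_nonneg_left h1 (norm_nonneg _)
      have h1 := csInf_le (hbd _) h
      have h2 : ‖c‖ * a ≤ ‖c‖ * (sInf {t : ℝ | ∀ᶠ j in atTop, ‖G x - Y j x‖ ≤ t} +
        ε / (‖c‖ + 1)) := mul_le_mul_of_nonneg_left ha'.le (norm_nonneg _)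
      have h3 : ‖c‖ * (ε / (‖c‖ + 1)) ≤ ε := by
        rw [mul_div_assoc', div_le_iff₀ (by positivity)]
        nlinarith [norm_nonneg c]
      linarith)

theorem limS_le {G : StrongDual 𝕜 E} {Y : ℕ → StrongDual 𝕜 E} (hY : ∀ j, ‖Y j‖ ≤ 1) {x : E}
    {t : ℝ} (h : ∀ ε : ℝ, 0 < ε → ∀ᶠ j in atTop, ‖G x - Y j x‖ ≤ t + ε) : limS G Y hY x ≤ t := by
  refine le_of_forall_pos_le_add fun ε hε => ?_
  refine csInf_le ?_ (h ε hε)
  refine ⟨0, fun t ht => ?_⟩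
  obtain ⟨j, hj⟩ := Eventually.exists ht
  exact (norm_nonneg _).trans hj

theorem limS_ev {G : StrongDual 𝕜 E} {Y : ℕ → StrongDual 𝕜 E} (hY : ∀ j, ‖Y j‖ ≤ 1) (x : E)
    {ε : ℝ} (hε : 0 < ε) : ∀ᶠ j in atTop, ‖G x - Y j x‖ ≤ limS G Y hY x + ε := by
  have hne : ‖G x‖ + ‖x‖ ∈ {t : ℝ | ∀ᶠ j in atTop, ‖G x - Y j x‖ ≤ t} := by
    refine Eventually.of_forall fun j => (norm_sub_le _ _).trans ?_
    have h1 := (Y j).le_opNorm x
    have h2 : ‖Y j‖ * ‖x‖ ≤ 1 * ‖x‖ := mul_le_mul_of_nonneg_right (hY j) (norm_nonneg _)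
    linarith
  obtain ⟨a, ha, ha'⟩ := exists_lt_of_csInf_lt ⟨_, hne⟩
    (lt_add_of_pos_right (sInf {t : ℝ | ∀ᶠ j in atTop, ‖G x - Y j x‖ ≤ t}) hε)
  have ha2 : ∀ᶠ j in atTop, ‖G x - Y j x‖ ≤ a := ha
  filter_upwards [ha2] with j hj
  exact hj.trans ha'.le

end Pool.Agent.V1198.WMP
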