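import Pool.Agent.V1198.WMP.James

set_option autoImplicit false

namespace Pool.Agent.V1198.WMP

open Filter Topology Set

universe u v

variable {𝕜 : Type v} [RCLike 𝕜] {E : Type u} [NormedAddCommGroup E] [NormedSpace 𝕜 E]

/-- There is no system of James type. -/
theorem no_james (H : SW 𝕜 E) {F : ℕ → StrongDual 𝕜 E} (hF : ∀ n, ‖F n‖ ≤ 1) {x : ℕ → E}
    (hx : ∀ k, ‖x k‖ ≤ 1) (h0 : ∀ n k, k < n → RCLike.re (F n (x k)) = 0)
    (h1 : ∀ n k, n ≤ k → 4 / 5 ≤ RCLike.re (F n (x k))) : False := by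
  obtain ⟨D⟩ := exists_data hF
  -- the limit functional
  have hcau : CauchySeq D.w := by
    refine cauchySeq_of_le_geometric (1 / 100) 2 (by norm_num) fun n => ?_
    rw [dist_comm, dist_eq_norm]
    refine (D.norm_sub_w hF (Nat.le_succ n)).trans ?_
    have h2 := R_pos (n + 1)
    have h3 : R n = (1 / 100) ^ n := rfl
    rw [← h3]
    linarith
  obtain ⟨G, hG⟩ := cauchySeq_tendsto_of_complete hcau
  have hGw : ∀ n, ‖G - D.w n‖ ≤ 2 * R n := by
    intro n
    have h2 : Tendsto (fun m => ‖D.w m - D.w n‖) atTop (𝓝 ‖G - D.w n‖) :=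
      (hG.sub_const _).norm
    refine le_of_tendsto h2 ?_
    filter_upwards [eventually_ge_atTop n] with m hm
    refine (D.norm_sub_w hF hm).trans ?_
    have := R_pos m
    linarith
  have hGwx : ∀ n y, ‖y‖ ≤ 1 → ‖G y - D.w n y‖ ≤ 2 * R n := by
    intro n y hy
    have h2 := (G - D.w n).le_opNorm y
    rw [sub_apply] at h2
    calc _ ≤ _ := h2
      _ ≤ (2 * R n) * 1 := by
        gcongr
        · have := R_pos n; linarith
        · exact hGw n
      _ = 2 * R n := mul_one _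
  let p := limS G D.Y (D.norm_Y hF)
  -- the optimal value
  have hbdd : BddAbove (range D.al) := ⟨3, by rintro _ ⟨n, rfl⟩; exact D.al_le hF n⟩
  set A := ⨆ n, D.al n with hA
  have hAn : ∀ n, D.al n ≤ A := fun n => le_ciSup hbdd n
  have hA8 : 8 / 5 ≤ A := (D.al_ge hF hx h0 h1 0).trans (hAn 0)
  -- the auxiliary errors
  let er : ℕ → ℝ := fun n => R (n + 1) / 100 * (1 / 2) ^ (n + 1)
  have her : ∀ n, er n ≤ R n := by
    intro n
    have h2 := R_pos n
    have h3 := R_succ n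
    have h4 : ((1 : ℝ) / 2) ^ (n + 1) ≤ 1 := pow_le_one₀ (by norm_num) (by norm_num)
    change R (n + 1) / 100 * (1 / 2) ^ (n + 1) ≤ R n
    rw [h3]
    have h5 : R n / 100 / 100 * (1 / 2) ^ (n + 1) ≤ R n / 100 / 100 * 1 :=
      mul_le_mul_of_nonneg_left h4 (by positivity)
    linarith
  -- the estimate for `V n - Y j`
  have hV : ∀ n y, ‖y‖ ≤ 1 → ∀ ε : ℝ, 0 < ε → ∀ᶠ j in atTop,
      ‖(D.w n + ((2 * R n : ℝ) : 𝕜) • D.Y n) y - D.Y j y‖ ≤ A + er n + ε := by
    intro n y hy ε hε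
    obtain ⟨t, ht, hB⟩ := D.hB n
    obtain ⟨J, hJ⟩ := eventually_atTop.mp (hB y hy ε hε)
    filter_upwards [eventually_ge_atTop J, eventually_ge_atTop (n + 1)] with j hj1 hj2
    have h2 : D.Y j ∈ K (D.z (n + 1)) j := D.Y_mem hj2
    have h3 := K_subset (RC_near ((D.w n + ((2 * R n : ℝ) : 𝕜) • D.Y n) y) y (t + ε))
      (fun i hi => hJ i (hj1.trans hi)) h2
    have h4 : t ≤ A + er n := ht.trans (add_le_add (hAn n) le_rfl)
    exact (show _ ≤ t + ε from h3).trans (by linarith)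
  -- the supremum of `p` is at most `A`
  have hpA : ∀ y, ‖y‖ = 1 → p y ≤ A := by
    intro y hy
    refine limS_le _ fun ε hε => ?_
    obtain ⟨n, hn⟩ := (R_lim.eventually_lt_const (show (0 : ℝ) < ε / 10 by positivity)).exists
    filter_upwards [hV n y hy.le (ε / 2) (by positivity)] with j hj
    have h2 := hGwx n y hy.le
    have h3 := her n
    have h4 : ‖((2 * R n : ℝ) : 𝕜) * D.Y n y‖ ≤ 2 * R n := by
      have h5 := R_pos n
      rw [norm_mul, RCLike.norm_ofReal, abs_of_nonneg (by linarith)]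
      have := D.norm_Y_apply hF n hy.le
      nlinarith
    have h6 : G y - D.Y j y = ((D.w n + ((2 * R n : ℝ) : 𝕜) • D.Y n) y - D.Y j y) +
        (G y - D.w n y) - ((2 * R n : ℝ) : 𝕜) * D.Y n y := by
      rw [add_apply, smul_apply, smul_eq_mul]; ring
    rw [h6]
    refine (norm_sub_le _ _).trans ?_
    have h7 := norm_add_le ((D.w n + ((2 * R n : ℝ) : 𝕜) • D.Y n) y - D.Y j y) (G y - D.w n y)
    linarith
  -- the supremum of `p` is at least `A`
  have hAp : ∀ τ : ℝ, (∀ y, ‖y‖ = 1 → p y ≤ τ) → A ≤ τ := by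
    intro τ hτ
    have hτ' : ∀ y, ‖y‖ ≤ 1 → p y ≤ max τ 0 := by
      intro y hy
      refine (bdd_of_sphere hτ y).trans ?_
      calc τ * ‖y‖ ≤ max τ 0 * ‖y‖ := by gcongr; exact le_max_left _ _
        _ ≤ max τ 0 * 1 := by gcongr
        _ = _ := mul_one _
    have h2 : A ≤ max τ 0 := by
      refine ciSup_le fun n => le_of_forall_pos_le_add fun ε hε => ?_
      obtain ⟨m, hm, hnm⟩ := ((R_lim.eventually_lt_const (show (0 : ℝ) < ε / 10 by positivity)).and
        (eventually_ge_atTop n)).exists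
      refine (D.al_mono hF hnm).trans ?_
      refine csInf_le (Fe_bdd _ _ _) ?_
      refine ⟨D.Y m, D.hY m, fun j => D.Y (j + m), fun j => ?_, fun y hy δ hδ => ?_⟩
      · exact K_mono (Nat.le_add_right _ _) (D.Y_mem (Nat.le_add_left _ _))
      · have h3 := (tendsto_add_atTop_nat m).eventually (limS_ev (D.norm_Y hF) (G := G) y hδ)
        filter_upwards [h3] with j hj
        have h4 : p y ≤ max τ 0 := hτ' y hy
        have h5 : ‖((2 * R m : ℝ) : 𝕜) * D.Y m y‖ ≤ 2 * R m := by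
          have h5 := R_pos m
          rw [norm_mul, RCLike.norm_ofReal, abs_of_nonneg (by linarith)]
          have := D.norm_Y_apply hF m hy
          nlinarith
        have h6 : (D.w m + ((2 * R m : ℝ) : 𝕜) • D.Y m) y - D.Y (j + m) y =
            (G y - D.Y (j + m) y) - (G y - D.w m y) + ((2 * R m : ℝ) : 𝕜) * D.Y m y := by
          rw [add_apply, smul_apply, smul_eq_mul]; ring
        rw [h6]
        refine (norm_add_le _ _).trans ?_
        have h7 := norm_sub_le (G y - D.Y (j + m) y) (G y - D.w m y)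
        have h8 := hGwx m y hy
        have h9 : limS G D.Y (D.norm_Y hF) y = p y := rfl
        rw [h9] at hj
        linarith
    rcases le_max_iff.mp h2 with h3 | h3
    · exact h3
    · linarith
  -- a maximizing sequence
  have hmax : ∀ n : ℕ, ∃ y : E, ‖y‖ = 1 ∧ A - 1 / ((n : ℝ) + 1) ≤ p y := by
    intro n
    by_contra hcon
    push Not at hcon
    have h2 := hAp _ fun y hy => (hcon y hy).le
    have : (0 : ℝ) < 1 / ((n : ℝ) + 1) := by positivity
    linarith
  choose y hy1 hy2 using hmax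
  have hylim : Tendsto (fun n => p (y n)) atTop (𝓝 A) := by
    have h2 : Tendsto (fun n : ℕ => A - 1 / ((n : ℝ) + 1)) atTop (𝓝 (A - 0)) :=
      tendsto_const_nhds.sub tendsto_one_div_add_atTop_nhds_zero_nat
    rw [sub_zero] at h2
    exact tendsto_of_tendsto_of_tendsto_of_le_of_le h2 tendsto_const_nhds hy2 fun n => hpA _ (hy1 n)
  have hwn : ¬ WeaklyNull 𝕜 y := by
    intro hwn
    have h2 : Tendsto (fun n => ‖G (y n)‖ + 1) atTop (𝓝 (0 + 1)) := by
      have := (hwn G).norm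
      rw [norm_zero] at this
      exact this.add_const 1
    have h3 : ∀ n, p (y n) ≤ ‖G (y n)‖ + 1 := by
      intro n
      refine limS_le _ fun ε hε => Eventually.of_forall fun j => ?_
      have h4 := norm_sub_le (G (y n)) (D.Y j (y n))
      have h5 := D.norm_Y_apply hF j (hy1 n).le
      linarith
    have h4 := le_of_tendsto_of_tendsto' hylim h2 h3
    linarith
  obtain ⟨e, he, hpe⟩ := H p A hpA y hy1 hylim hwn
  -- the partial estimates
  let e' : ℕ → ℝ := fun n => R n / 100 * (1 - (1 / 2) ^ n)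
  have hpart : ∀ n, ∀ ε : ℝ, 0 < ε → ∀ᶠ j in atTop,
      ‖D.w n e - ((1 - R n : ℝ) : 𝕜) * D.Y j e‖ ≤ A * (1 - R n) + e' n + ε := by
    intro n
    induction n with
    | zero =>
      intro ε hε
      refine Eventually.of_forall fun j => ?_
      have h2 : e' 0 = 0 := by simp [e']
      rw [D.w0, R_zero, h2]
      simp [hε.le]
    | succ n ih =>
      intro ε hε
      filter_upwards [ih ε hε, hV n e he.le ε hε] with j hj1 hj2
      have h2 : D.w (n + 1) e - ((1 - R (n + 1) : ℝ) : 𝕜) * D.Y j e =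
          ((1 / 100 : ℝ) : 𝕜) * (D.w n e - ((1 - R n : ℝ) : 𝕜) * D.Y j e) +
          ((99 / 100 : ℝ) : 𝕜) * ((D.w n + ((2 * R n : ℝ) : 𝕜) • D.Y n) e - D.Y j e) := by
        rw [D.hw, add_apply, smul_apply, add_apply, smul_apply, R_succ]
        simp only [smul_eq_mul]
        push_cast
        ring
      rw [h2]
      refine (norm_add_le _ _).trans ?_
      rw [norm_mul, norm_mul, RCLike.norm_ofReal, RCLike.norm_ofReal,
        abs_of_nonneg (by norm_num : (0 : ℝ) ≤ 1 / 100),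
        abs_of_nonneg (by norm_num : (0 : ℝ) ≤ 99 / 100)]
      have h3 : e' (n + 1) = e' n / 100 + er n := by
        change R (n + 1) / 100 * (1 - (1 / 2) ^ (n + 1)) =
          (R n / 100 * (1 - (1 / 2) ^ n)) / 100 + R (n + 1) / 100 * (1 / 2) ^ (n + 1)
        rw [R_succ, pow_succ]
        ring
      have h4 : 0 ≤ er n := by
        have := R_pos (n + 1)
        positivity
      rw [h3, R_succ]
      linarith
  -- a cluster value
  have hfreq : ∀ k : ℕ, ∃ᶠ j in atTop, A - 1 / ((k : ℝ) + 1) ≤ ‖G e - D.Y j e‖ := by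
    intro k hcon
    have h2 : p e ≤ A - 1 / ((k : ℝ) + 1) := by
      refine limS_le _ fun ε hε => ?_
      filter_upwards [hcon] with j hj
      have := not_le.mp hj
      linarith
    have : (0 : ℝ) < 1 / ((k : ℝ) + 1) := by positivity
    linarith
  obtain ⟨φ, hφm, hφ⟩ := extraction_forall_of_frequently hfreq
  obtain ⟨c, -, ρ, hρm, hρ⟩ := tendsto_subseq_of_bounded (x := fun k => D.Y (φ k) e)
    (s := Metric.closedBall (0 : 𝕜) 1) Metric.isBounded_closedBall fun k => by
      rw [mem_closedBall_zero_iff]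
      exact D.norm_Y_apply hF _ he.le
  have hψ : Tendsto (fun k => φ (ρ k)) atTop atTop := (hφm.comp hρm).tendsto_atTop
  have hc : Tendsto (fun k => D.Y (φ (ρ k)) e) atTop (𝓝 c) := hρ
  have hc1 : ‖c‖ ≤ 1 := le_of_tendsto hc.norm (Eventually.of_forall fun k =>
    D.norm_Y_apply hF _ he.le)
  have hGc : A ≤ ‖G e - c‖ := by
    have h2 : Tendsto (fun k => ‖G e - D.Y (φ (ρ k)) e‖) atTop (𝓝 ‖G e - c‖) :=
      (tendsto_const_nhds.sub hc).norm
    have h3 : Tendsto (fun k : ℕ => A - 1 / ((ρ k : ℝ) + 1)) atTop (𝓝 (A - 0)) :=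
      tendsto_const_nhds.sub ((tendsto_one_div_add_atTop_nhds_zero_nat (𝕜 := ℝ)).comp
        hρm.tendsto_atTop)
    rw [sub_zero] at h3
    exact le_of_tendsto_of_tendsto' h3 h2 fun k => hφ (ρ k)
  have hpartc : ∀ n, ‖D.w n e - ((1 - R n : ℝ) : 𝕜) * c‖ ≤ A * (1 - R n) + R n / 100 := by
    intro n
    refine le_of_forall_pos_le_add fun ε hε => ?_
    have h2 : Tendsto (fun k => ‖D.w n e - ((1 - R n : ℝ) : 𝕜) * D.Y (φ (ρ k)) e‖) atTop
        (𝓝 ‖D.w n e - ((1 - R n : ℝ) : 𝕜) * c‖) :=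
      (tendsto_const_nhds.sub (hc.const_mul _)).norm
    refine le_of_tendsto h2 ?_
    filter_upwards [hψ.eventually (hpart n ε hε)] with k hk
    have h3 : e' n ≤ R n / 100 := by
      have h4 := R_pos n
      change R n / 100 * (1 - (1 / 2) ^ n) ≤ R n / 100
      have h5 : (0 : ℝ) ≤ (1 / 2) ^ n := by positivity
      nlinarith
    linarith
  -- an index at which `Y n e` is near `c`
  have hnear : ∃ n, ‖D.Y n e - c‖ ≤ 1 / 100 := by
    have h2 : Tendsto (fun k => ‖D.Y (φ (ρ k)) e - c‖) atTop (𝓝 0) := by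
      have := (hc.sub_const c).norm
      rwa [sub_self, norm_zero] at this
    obtain ⟨k, hk⟩ := (h2.eventually_lt_const (show (0 : ℝ) < 1 / 100 by norm_num)).exists
    exact ⟨_, hk.le⟩
  obtain ⟨n, hn⟩ := hnear
  have h2 : G e - c = (D.w n e - ((1 - R n : ℝ) : 𝕜) * c) +
      ((R n - R (n + 1) : ℝ) : 𝕜) * (2 * (D.Y n e - c) + c) +
      ((G e - D.w (n + 1) e) - ((R (n + 1) : ℝ) : 𝕜) * c) := by
    rw [D.hw, add_apply, smul_apply, smul_eq_mul]
    push_cast
    ring
  have hRn := R_pos n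
  have hRs := R_succ n
  have h3 : ‖((R n - R (n + 1) : ℝ) : 𝕜) * (2 * (D.Y n e - c) + c)‖ ≤
      (R n - R (n + 1)) * (2 * (1 / 100) + 1) := by
    rw [norm_mul, RCLike.norm_ofReal, abs_of_nonneg (by linarith)]
    refine mul_le_mul_of_nonneg_left ?_ (by linarith)
    refine (norm_add_le _ _).trans ?_
    rw [norm_mul, RCLike.norm_ofNat]
    linarith
  have h4 : ‖(G e - D.w (n + 1) e) - ((R (n + 1) : ℝ) : 𝕜) * c‖ ≤ 3 * R (n + 1) := by
    refine (norm_sub_le _ _).trans ?_
    rw [norm_mul, RCLike.norm_ofReal, abs_of_nonneg (R_pos (n + 1)).le]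
    have h5 := hGwx (n + 1) e he.le
    have h6 : R (n + 1) * ‖c‖ ≤ R (n + 1) * 1 := mul_le_mul_of_nonneg_left hc1 (R_pos _).le
    linarith
  have h5 := hpartc n
  have h6 : ‖G e - c‖ ≤ (A * (1 - R n) + R n / 100) + (R n - R (n + 1)) * (2 * (1 / 100) + 1) +
      3 * R (n + 1) := by
    rw [h2]
    refine (norm_add_le _ _).trans (add_le_add ?_ h4)
    exact (norm_add_le _ _).trans (add_le_add h5 h3)
  have h7 := hGc.trans h6
  rw [hRs] at h7
  nlinarith

end Pool.Agent.V1198.WMP
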